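import Pool.Agent.Lib_helper67.LR.Defs
import Pool.Agent.Lib_helper78.LR.Colour

/-!
Block PR: the protocol (from `exists_restriction` and `nc_restriction`, taken as hypotheses).
-/

set_option autoImplicit false

namespace Pool.Agent.Lib_helper67.LR

open Finset Pool.Agent.Lib_helper78.LR
open scoped BigOperators

/-- Bob sends the values of finitely many bits. -/
theorem hasP_sendBob {X Y : Type} {F : X → Y → Bool} {c : ℕ} (m : ℕ) :
    ∀ (R : X → Y → Prop) (lab : Y → Fin m → Bool),
      (∀ l : Fin m → Bool, HasP (fun x y => R x y ∧ lab y = l) F c) → HasP R F (c + m) := by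
  induction m with
  | zero =>
    intro R lab h
    obtain ⟨π, h1, h2⟩ := h (fun i => i.elim0)
    exact ⟨π, h1, fun x y hxy => h2 x y ⟨hxy, funext fun i => i.elim0⟩⟩
  | succ m ih =>
    intro R lab h
    rw [← add_assoc]
    refine HasP.bob (fun y => lab y 0) fun b => ?_
    refine ih _ (fun y i => lab y i.succ) fun l => ?_
    obtain ⟨π, h1, h2⟩ := h (Fin.cons b l)
    refine ⟨π, h1, fun x y hxy => h2 x y ⟨hxy.1.1, ?_⟩⟩
    funext i
    refine Fin.cases ?_ (fun i => ?_) i
    · exact hxy.1.2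
    · rw [Fin.cons_succ]; exact congrFun hxy.2 i

/-- the statement of `exists_restriction` -/
def ExRes : Prop := ∀ {Ω : Type} [Fintype Ω] [DecidableEq Ω] (T : Finset (G Ω)),
    ∃ ψ π : G Ω →ₗ[ZMod 2] G Ω, (∀ a x, chi a (π x) = chi (ψ a) x) ∧
      (∀ a, ψ a = 0 ↔ a ∈ Submodule.span (ZMod 2) (T : Set (G Ω))) ∧
      (∀ z, (∀ a ∈ T, chi a z = 1) → π z = z)

/-- the statement of `nc_restriction` -/
def NcRes : Prop := ∀ {Ω : Type} [Fintype Ω] [DecidableEq Ω] (f : G Ω → ℝ)
    (ψ π : G Ω →ₗ[ZMod 2] G Ω) (_ : ∀ a x, chi a (π x) = chi (ψ a) x) (x₀ β : G Ω),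
    nc (fun x => f (x₀ + π x)) β = ∑ α with ψ α = β, nc f α * chi α x₀

section

variable {Ω : Type} [Fintype Ω] [DecidableEq Ω]

theorem nc_eq_zero_iff (f : G Ω → ℝ) (a : G Ω) : nc f a = 0 ↔ a ∉ spec f := by
  rw [mem_spec, not_not]
  unfold nc
  rw [div_eq_zero_iff]
  constructor
  · rintro (h | h)
    · exact h
    · exact absurd h (by positivity)
  · exact fun h => Or.inl h

omit [DecidableEq Ω] in
theorem chi_eq_or (a x : G Ω) : chi a x = 1 ∨ chi a x = -1 := by
  unfold chi sg
  split_ifs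
  · exact Or.inl rfl
  · exact Or.inr rfl

/-- A constant function has no nonzero characters. -/
theorem nc_const (c : ℝ) (β : G Ω) (hβ : β ≠ 0) : nc (fun _ : G Ω => c) β = 0 := by
  unfold nc coef
  rw [← Finset.mul_sum]
  have : ∑ x : G Ω, chi β x = 0 := by
    have h := sum_chi β
    rw [if_neg hβ] at h
    rw [← h]
    exact Finset.sum_congr rfl fun x _ => chi_comm _ _
  rw [this]; simp

/-- A function whose nonzero characters vanish is constant. -/
theorem const_of_spec (f : G Ω → ℝ) (h : (spec f).erase 0 = ∅) (x y : G Ω) : f x = f y := by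
  have h1 : ∀ z : G Ω, coef f 0 = (2 : ℝ) ^ Fintype.card Ω * f z := by
    intro z
    rw [← inversion f z, Finset.sum_eq_single (0 : G Ω)]
    · rw [chi_comm, chi_zero, mul_one]
    · intro b _ hb
      have : b ∉ spec f := fun hb' => by
        have h2 : b ∈ (spec f).erase 0 := Finset.mem_erase.mpr ⟨hb, hb'⟩
        rw [h] at h2
        exact absurd h2 (Finset.notMem_empty b)
      rw [mem_spec, not_not] at this
      rw [this, zero_mul]
    · intro h; exact absurd (Finset.mem_univ _) h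
  have h2 : (2 : ℝ) ^ Fintype.card Ω ≠ 0 := by positivity
  exact mul_left_cancel₀ h2 ((h1 x).symm.trans (h1 y))

/-- The halving step. -/
theorem halving (hnc : NcRes) (f : G Ω → ℝ) (T : Finset (G Ω)) (x₀ : G Ω)
    (hT : ∀ x, (∀ a ∈ T, chi a x = chi a x₀) → f x = f x₀)
    (ψ π : G Ω →ₗ[ZMod 2] G Ω) (h1 : ∀ a x, chi a (π x) = chi (ψ a) x)
    (h2 : ∀ a, ψ a = 0 ↔ a ∈ Submodule.span (ZMod 2) (T : Set (G Ω))) (z : G Ω) :
    2 * ((spec fun x => f (z + π x)).erase 0).card ≤ ((spec f).erase 0).card := by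
  classical
  -- the restriction to the coset of `x₀` is constant
  have hconst : (fun x => f (x₀ + π x)) = fun _ => f x₀ := by
    funext x
    apply hT
    intro a ha
    rw [chi_add, h1, (h2 a).mpr (Submodule.subset_span ha)]
    have : chi (0 : G Ω) x = 1 := by rw [chi_comm, chi_zero]
    rw [this, mul_one]
  -- every nonzero class has at least two elements
  have hcls : ∀ β ∈ (spec fun x => f (z + π x)).erase 0,
      2 ≤ (((spec f).erase 0).filter fun α => ψ α = β).card := by
    intro β hβ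
    obtain ⟨hβ0, hβs⟩ := Finset.mem_erase.mp hβ
    have e1 := hnc f ψ π h1 z β
    have e2 := hnc f ψ π h1 x₀ β
    rw [hconst, nc_const _ _ hβ0] at e2
    have e3 : nc (fun x => f (z + π x)) β ≠ 0 := fun h => ((nc_eq_zero_iff _ _).mp h) hβs
    rw [e1] at e3
    -- some `α ∈ spec f` in the class
    obtain ⟨α, hα, hα'⟩ := Finset.exists_ne_zero_of_sum_ne_zero e3
    have hαβ : ψ α = β := (Finset.mem_filter.mp hα).2
    have hαs : nc f α ≠ 0 := left_ne_zero_of_mul hα'
    -- a second one
    obtain ⟨α', hα1, hα2⟩ : ∃ α' ∈ Finset.univ.filter (fun α => ψ α = β), α' ≠ α ∧ nc f α' ≠ 0 := by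
      by_contra hcon
      push Not at hcon
      have e4 : ∑ α' with ψ α' = β, nc f α' * chi α' x₀ = nc f α * chi α x₀ := by
        apply Finset.sum_eq_single_of_mem α hα
        intro b hb hba
        rw [hcon b hb hba, zero_mul]
      rw [e4] at e2
      exact (mul_ne_zero hαs (chi_ne_zero _ _)) e2.symm
    have hαβ' : ψ α' = β := (Finset.mem_filter.mp hα1).2
    have hm : ∀ γ : G Ω, ψ γ = β → nc f γ ≠ 0 → γ ∈ ((spec f).erase 0).filter fun α => ψ α = β := by
      intro γ hγ hγ'
      refine Finset.mem_filter.mpr ⟨Finset.mem_erase.mpr ⟨?_, ?_⟩, hγ⟩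
      · rintro rfl
        rw [map_zero] at hγ
        exact hβ0 hγ.symm
      · by_contra hh
        exact hγ' ((nc_eq_zero_iff _ _).mpr hh)
    have h3 : 1 < (((spec f).erase 0).filter fun α => ψ α = β).card :=
      Finset.one_lt_card.mpr ⟨α', hm α' hαβ' hα2.2, α, hm α hαβ hαs, hα2.1⟩
    omega
  calc 2 * ((spec fun x => f (z + π x)).erase 0).card
      = ∑ β ∈ (spec fun x => f (z + π x)).erase 0, 2 := by
        rw [Finset.sum_const, smul_eq_mul, mul_comm]
    _ ≤ ∑ β ∈ (spec fun x => f (z + π x)).erase 0,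
        (((spec f).erase 0).filter fun α => ψ α = β).card := Finset.sum_le_sum hcls
    _ ≤ ((spec f).erase 0).card := by
        rw [← Finset.card_biUnion]
        · apply Finset.card_le_card
          intro a ha
          rw [Finset.mem_biUnion] at ha
          obtain ⟨β, _, h⟩ := ha
          exact (Finset.mem_filter.mp h).1
        · intro β _ β' _ hne
          rw [Function.onFun, Finset.disjoint_left]
          intro a ha ha'
          exact hne ((Finset.mem_filter.mp ha).2.symm.trans (Finset.mem_filter.mp ha').2)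

end

theorem protocol_rec (hres : ExRes) (hnc : NcRes) (κ : ℝ) (hκ0 : 1 / 3 ≤ κ) (hκ1 : κ ≤ 1)
    (A : ℝ) (hA : 0 ≤ A) (n : ℕ)
    (h : ∀ f : G (Fin n) → ℝ, IsSign f → Kill f (A * ((spec f).card : ℝ) ^ κ)) (m : ℕ) :
    ∀ f : G (Fin n) → ℝ, IsSign f → ((spec f).erase 0).card ≤ m →
      ∃ P : Protocol (G (Fin n)) (G (Fin n)), (P.cost : ℝ) ≤ 20 * A * (m : ℝ) ^ κ ∧
        ∀ x y, P.eval x y = decide (f (x + y) = -1) := by
  classical
  induction m using Nat.strong_induction_on with
  | _ m ih =>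
  intro f hf hm
  have hκ : 0 < κ := by linarith
  rcases Nat.eq_zero_or_pos m with rfl | hmpos
  · -- constant function
    have h0 : (spec f).erase 0 = ∅ := Finset.card_eq_zero.mp (Nat.le_zero.mp hm)
    refine ⟨Protocol.leaf (decide (f 0 = -1)), ?_, fun x y => ?_⟩
    · simp only [Protocol.cost, Nat.cast_zero]
      positivity
    · simp only [Protocol.eval]
      rw [const_of_spec f h0 (x + y) 0]
  · obtain ⟨T, x₀, hTc, hT⟩ := h f hf
    obtain ⟨ψ, π, h1, h2, h3⟩ := hres T
    set c : ℕ := ⌊20 * A * ((m : ℝ) / 2) ^ κ⌋₊ with hc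
    -- the restricted functions
    have hsub : ∀ z : G (Fin n), ∃ P : Protocol (G (Fin n)) (G (Fin n)), P.cost ≤ c ∧
        ∀ x y, P.eval x y = decide (f (z + π (x + y)) = -1) := by
      intro z
      have hh := halving hnc f T x₀ hT ψ π h1 h2 z
      have hlt : m / 2 < m := Nat.div_lt_self hmpos (by norm_num)
      obtain ⟨P, hP1, hP2⟩ := ih (m / 2) hlt (fun x => f (z + π x)) (fun x => hf _) (by omega)
      refine ⟨P, ?_, hP2⟩
      apply Nat.le_floor
      refine hP1.trans ?_
      refine mul_le_mul_of_nonneg_left ?_ (by positivity)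
      refine Real.rpow_le_rpow (Nat.cast_nonneg _) ?_ hκ.le
      exact Nat.cast_div_le
    -- labels
    let e := T.equivFin
    let lab : G (Fin n) → Fin T.card → Bool := fun x i => decide (chi (e.symm i : G (Fin n)) x = 1)
    have hlab : ∀ x x' : G (Fin n), lab x = lab x' → ∀ a ∈ T, chi a x = chi a x' := by
      intro x x' hxx a ha
      have h4 := congrFun hxx (e ⟨a, ha⟩)
      simp only [lab, Equiv.symm_apply_apply, decide_eq_decide] at h4
      rcases chi_eq_or a x with h5 | h5 <;> rcases chi_eq_or a x' with h6 | h6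
      · rw [h5, h6]
      · have h7 := h4.mp h5
        rw [h6] at h7
        norm_num at h7
      · have h7 := h4.mpr h6
        rw [h5] at h7
        norm_num at h7
      · rw [h5, h6]
    have hP : HasP (fun _ _ : G (Fin n) => True)
        (fun x y => decide (f (x + y) = -1)) (c + T.card + T.card) := by
      refine HasP.send T.card _ lab fun l => ?_
      refine hasP_sendBob T.card _ lab fun l' => ?_
      by_cases hl : ∃ u v : G (Fin n), lab u = l ∧ lab v = l'
      · obtain ⟨u, v, hu, hv⟩ := hl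
        obtain ⟨P, hP1, hP2⟩ := hsub ((u + v) + π (u + v))
        refine ⟨P, hP1, ?_⟩
        rintro x y ⟨⟨_, hx⟩, hy⟩
        rw [hP2]
        have hz : π ((u + v) + (x + y)) = (u + v) + (x + y) := by
          apply h3
          intro a ha
          rw [chi_add, chi_add, chi_add, hlab x u (hx.trans hu.symm) a ha,
            hlab y v (hy.trans hv.symm) a ha, ← chi_add]
          exact chi_mul_self _ _
        have hz2 : (u + v) + π (u + v) + π (x + y) = x + y := by
          rw [add_assoc, ← map_add, hz, ← add_assoc, add_self, zero_add]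
        rw [hz2]
      · refine ⟨Protocol.leaf true, Nat.zero_le _, ?_⟩
        rintro x y ⟨⟨_, hx⟩, hy⟩
        exact absurd ⟨x, y, hx, hy⟩ hl
    obtain ⟨P, hP1, hP2⟩ := hP
    refine ⟨P, ?_, fun x y => hP2 x y trivial⟩
    have hm1 : (1 : ℝ) ≤ m := by exact_mod_cast hmpos
    have e1 : (P.cost : ℝ) ≤ c + T.card + T.card := by exact_mod_cast hP1
    have e2 : (c : ℝ) ≤ 20 * A * ((m : ℝ) / 2) ^ κ := Nat.floor_le (by positivity)
    have e3 : ((spec f).card : ℝ) ≤ 2 * m := by
      have : (spec f).card - 1 ≤ ((spec f).erase 0).card := Finset.pred_card_le_card_erase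
      have h4 : (spec f).card ≤ m + 1 := by omega
      have h5 : ((spec f).card : ℝ) ≤ m + 1 := by exact_mod_cast h4
      linarith
    have e4 : ((spec f).card : ℝ) ^ κ ≤ 2 * (m : ℝ) ^ κ := by
      calc ((spec f).card : ℝ) ^ κ ≤ (2 * m) ^ κ := Real.rpow_le_rpow (Nat.cast_nonneg _) e3 hκ.le
        _ = 2 ^ κ * (m : ℝ) ^ κ := Real.mul_rpow (by norm_num) (by positivity)
        _ ≤ 2 ^ (1 : ℝ) * (m : ℝ) ^ κ := by
          refine mul_le_mul_of_nonneg_right ?_ (by positivity)
          exact Real.rpow_le_rpow_of_exponent_le (by norm_num) hκ1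
        _ = 2 * (m : ℝ) ^ κ := by rw [Real.rpow_one]
    have e5 : ((m : ℝ) / 2) ^ κ ≤ 4 / 5 * (m : ℝ) ^ κ := by
      have h5 : ((m : ℝ) / 2) ^ κ = (1 / 2) ^ κ * (m : ℝ) ^ κ := by
        rw [← Real.mul_rpow (by norm_num) (by positivity)]
        congr 1; ring
      rw [h5]
      refine mul_le_mul_of_nonneg_right ?_ (by positivity)
      have h6 : ((1 : ℝ) / 2) ^ κ ≤ (1 / 2) ^ ((1 : ℝ) / 3) :=
        Real.rpow_le_rpow_of_exponent_ge (by norm_num) (by norm_num) hκ0
      refine h6.trans ?_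
      have h7 : ((1 : ℝ) / 2) ^ ((1 : ℝ) / 3) ≤ ((4 / 5 : ℝ) ^ (3 : ℕ)) ^ ((1 : ℝ) / 3) :=
        Real.rpow_le_rpow (by norm_num) (by norm_num) (by norm_num)
      refine h7.trans (le_of_eq ?_)
      rw [← Real.rpow_natCast, ← Real.rpow_mul (by norm_num)]
      norm_num
    have e6 : (T.card : ℝ) ≤ A * (2 * (m : ℝ) ^ κ) := hTc.trans (mul_le_mul_of_nonneg_left e4 hA)
    have e7 : 20 * A * ((m : ℝ) / 2) ^ κ ≤ 20 * A * (4 / 5 * (m : ℝ) ^ κ) :=
      mul_le_mul_of_nonneg_left e5 (by positivity)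
    nlinarith [e1, e2, e6, e7]

theorem protocol_of_kill_of (hres : ExRes) (hnc : NcRes)
    (κ : ℝ) (hκ0 : 1 / 3 ≤ κ) (hκ1 : κ ≤ 1) (A : ℝ) (hA : 0 ≤ A)
    (h : ∀ (n : ℕ) (f : G (Fin n) → ℝ), IsSign f → Kill f (A * ((spec f).card : ℝ) ^ κ)) :
    ∃ C : ℝ, ∀ (n : ℕ) (f : G (Fin n) → Bool),
      ∃ P : Protocol (G (Fin n)) (G (Fin n)), (∀ x y, P.eval x y = f (x + y)) ∧
        (P.cost : ℝ) ≤ C * (realRank fun x y : G (Fin n) => f (x + y) : ℝ) ^ κ := by
  classical
  refine ⟨20 * A, fun n f => ?_⟩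
  let b : G (Fin n) → ℝ := fun x => if f x then 1 else 0
  let g : G (Fin n) → ℝ := fun x => if f x then -1 else 1
  have hg : IsSign g := by
    intro x
    simp only [g]
    split_ifs
    · exact Or.inr rfl
    · exact Or.inl rfl
  have hgb : g = fun x => 1 + (-2) * b x := by
    funext x
    simp only [g, b]
    split_ifs <;> norm_num
  have hsub : (spec g).erase 0 ⊆ spec b := by
    intro a ha
    obtain ⟨h0, h1⟩ := Finset.mem_erase.mp ha
    rw [mem_spec, hgb, coef_add (fun _ => (1 : ℝ)) b (-2) a] at h1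
    have h2 : coef (fun _ : G (Fin n) => (1 : ℝ)) a = 0 := by
      have h3 := nc_const (Ω := Fin n) 1 a h0
      unfold nc at h3
      rw [div_eq_zero_iff] at h3
      rcases h3 with h3 | h3
      · exact h3
      · exact absurd h3 (by positivity)
    rw [h2, zero_add] at h1
    exact (mem_spec b a).mpr (right_ne_zero_of_mul h1)
  have hrank : ((spec g).erase 0).card ≤ realRank fun x y : G (Fin n) => f (x + y) := by
    refine (Finset.card_le_card hsub).trans ((spec_le_rank b).trans (le_of_eq ?_))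
    rfl
  obtain ⟨P, hP1, hP2⟩ := protocol_rec hres hnc κ hκ0 hκ1 A hA n (h n) _ g hg hrank
  refine ⟨P, fun x y => ?_, hP1⟩
  rw [hP2]
  cases hf : f (x + y) with
  | true =>
    have h1 : g (x + y) = -1 := by simp [g, hf]
    rw [h1]; simp
  | false =>
    have h1 : g (x + y) = 1 := by simp [g, hf]
    rw [h1]; norm_num

end Pool.Agent.Lib_helper67.LR
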