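import Pool.Agent.Lib_helper67.LR.Defs

/-!
Block SQ: second moments of U-statistics.
-/

set_option autoImplicit false

namespace Pool.Agent.Lib_helper67.LR

open Finset Pool.Agent.Lib_helper78.LR
open scoped BigOperators

theorem sq_expect_prod {A : Type} [Fintype A] [Nonempty A] (q : ℕ) (f : Fin q → A → ℝ) :
    (𝔼 u : Fin q → A, ∏ k, f k (u k)) = ∏ k, 𝔼 a, f k a := by
  classical
  have h1 : ∑ u : Fin q → A, ∏ k, f k (u k) = ∏ k, ∑ a, f k a := by
    rw [Finset.prod_univ_sum, Fintype.piFinset_univ]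
  simp only [Fintype.expect_eq_sum_div_card]
  rw [h1, Finset.prod_div_distrib, Fintype.card_fun, Finset.prod_const, Finset.card_univ]
  push_cast
  rfl

theorem sq_marg {A : Type} [Fintype A] [Nonempty A] (q : ℕ) (i : Fin q) (F : A → ℝ) :
    (𝔼 u : Fin q → A, F (u i)) = 𝔼 a, F a := by
  classical
  have h := sq_expect_prod q (fun k a => if k = i then F a else 1)
  have e1 : ∀ u : Fin q → A, ∏ k, (if k = i then F (u k) else 1) = F (u i) := by
    intro u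
    rw [Finset.prod_ite_eq' Finset.univ i (fun k => F (u k))]
    simp
  have e2 : ∀ k : Fin q, (𝔼 a, (if k = i then F a else 1)) = if k = i then 𝔼 a, F a else 1 := by
    intro k
    split_ifs
    · rfl
    · exact Finset.expect_const Finset.univ_nonempty 1
  simp only [e1, e2] at h
  rw [h, Finset.prod_ite_eq' Finset.univ i (fun _ => 𝔼 a, F a)]
  simp

theorem sq_marg2 {A : Type} [Fintype A] [Nonempty A] (q : ℕ) (i j : Fin q) (hij : i ≠ j)
    (F H : A → ℝ) :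
    (𝔼 u : Fin q → A, F (u i) * H (u j)) = (𝔼 a, F a) * 𝔼 a, H a := by
  classical
  have h := sq_expect_prod q (fun k a => (if k = i then F a else 1) * (if k = j then H a else 1))
  have e1 : ∀ u : Fin q → A, ∏ k, ((if k = i then F (u k) else 1) * (if k = j then H (u k) else 1))
      = F (u i) * H (u j) := by
    intro u
    rw [Finset.prod_mul_distrib, Finset.prod_ite_eq' Finset.univ i (fun k => F (u k)),
      Finset.prod_ite_eq' Finset.univ j (fun k => H (u k))]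
    simp
  have e2 : ∀ k : Fin q, (𝔼 a, ((if k = i then F a else 1) * (if k = j then H a else 1)))
      = (if k = i then 𝔼 a, F a else 1) * (if k = j then 𝔼 a, H a else 1) := by
    intro k
    by_cases h1 : k = i
    · have h2 : k ≠ j := fun h => hij (h1.symm.trans h)
      simp only [if_pos h1, if_neg h2, mul_one]
    · by_cases h2 : k = j
      · simp only [if_neg h1, if_pos h2, one_mul]
      · simp only [if_neg h1, if_neg h2, mul_one]
        exact Finset.expect_const Finset.univ_nonempty 1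
  simp only [e1, e2] at h
  rw [h, Finset.prod_mul_distrib, Finset.prod_ite_eq' Finset.univ i (fun _ => 𝔼 a, F a),
    Finset.prod_ite_eq' Finset.univ j (fun _ => 𝔼 a, H a)]
  simp

theorem sq_one {A : Type} [Fintype A] [Nonempty A] (q : ℕ) (g : Fin q → A → ℝ) :
    (𝔼 u : Fin q → A, (∑ i, g i (u i)) ^ 2) ≤
      ∑ i, (𝔼 a, g i a ^ 2) + (∑ i, 𝔼 a, g i a) ^ 2 := by
  classical
  have h1 : ∀ u : Fin q → A, (∑ i, g i (u i)) ^ 2 = ∑ i, ∑ j, g i (u i) * g j (u j) := by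
    intro u
    rw [sq, Finset.sum_mul_sum]
  have h2 : (∑ i, 𝔼 a, g i a) ^ 2 = ∑ i, ∑ j, (𝔼 a, g i a) * 𝔼 a, g j a := by
    rw [sq, Finset.sum_mul_sum]
  simp only [h1]
  rw [Finset.expect_sum_comm, h2, ← Finset.sum_add_distrib]
  refine Finset.sum_le_sum fun i _ => ?_
  rw [Finset.expect_sum_comm]
  have h3 : (𝔼 a, g i a ^ 2) = ∑ j, if j = i then (𝔼 a, g i a ^ 2) else 0 := by
    rw [Finset.sum_ite_eq' Finset.univ i]
    simp
  rw [h3, ← Finset.sum_add_distrib]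
  refine Finset.sum_le_sum fun j _ => ?_
  by_cases hij : j = i
  · subst hij
    rw [if_pos rfl]
    have h4 : (𝔼 u : Fin q → A, g j (u j) * g j (u j)) = 𝔼 a, g j a ^ 2 := by
      have := sq_marg q j (fun a => g j a ^ 2)
      rw [← this]
      refine Finset.expect_congr rfl fun u _ => by ring
    rw [h4]
    nlinarith [mul_self_nonneg (𝔼 a, g j a)]
  · rw [if_neg hij, sq_marg2 q i j (fun h => hij h.symm) (g i) (g j), zero_add]

theorem sq_two {A : Type} [Fintype A] [Nonempty A] (τ : ℕ) (h : A → A → ℝ) :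
    (𝔼 x : (Fin τ → A) × (Fin τ → A), (∑ i, ∑ j, h (x.1 i) (x.2 j)) ^ 2) ≤
      (τ : ℝ) ^ 2 * (𝔼 a, 𝔼 b, h a b ^ 2) + (τ : ℝ) ^ 3 * (𝔼 a, (𝔼 b, h a b) ^ 2) +
        (τ : ℝ) ^ 3 * (𝔼 b, (𝔼 a, h a b) ^ 2) + (τ : ℝ) ^ 4 * (𝔼 a, 𝔼 b, h a b) ^ 2 := by
  classical
  rw [← Finset.univ_product_univ, Finset.expect_product]
  -- fix `u`, average over `v`
  have h1 : ∀ u : Fin τ → A, (𝔼 v : Fin τ → A, (∑ i, ∑ j, h (u i) (v j)) ^ 2) ≤
      (τ : ℝ) * (𝔼 b, (∑ i, h (u i) b) ^ 2) + (τ : ℝ) ^ 2 * (∑ i, 𝔼 b, h (u i) b) ^ 2 := by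
    intro u
    have e := sq_one τ (fun (_ : Fin τ) (b : A) => ∑ i, h (u i) b)
    have e1 : ∀ v : Fin τ → A, ∑ i, ∑ j, h (u i) (v j) = ∑ j, ∑ i, h (u i) (v j) :=
      fun v => Finset.sum_comm
    simp only [e1]
    refine e.trans (le_of_eq ?_)
    rw [Finset.sum_const, Finset.sum_const, Finset.card_univ, Fintype.card_fin, nsmul_eq_mul,
      nsmul_eq_mul, Finset.expect_sum_comm, mul_pow]
  have h2 : (𝔼 u : Fin τ → A, 𝔼 v : Fin τ → A, (∑ i, ∑ j, h (u i) (v j)) ^ 2) ≤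
      𝔼 u : Fin τ → A, ((τ : ℝ) * (𝔼 b, (∑ i, h (u i) b) ^ 2) +
        (τ : ℝ) ^ 2 * (∑ i, 𝔼 b, h (u i) b) ^ 2) :=
    Finset.expect_le_expect fun u _ => h1 u
  refine h2.trans ?_
  rw [Finset.expect_add_distrib, ← Finset.mul_expect, ← Finset.mul_expect, Finset.expect_comm]
  have h3 : ∀ b : A, (𝔼 u : Fin τ → A, (∑ i, h (u i) b) ^ 2) ≤
      (τ : ℝ) * (𝔼 a, h a b ^ 2) + (τ : ℝ) ^ 2 * (𝔼 a, h a b) ^ 2 := by
    intro b
    refine (sq_one τ (fun (_ : Fin τ) (a : A) => h a b)).trans (le_of_eq ?_)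
    rw [Finset.sum_const, Finset.sum_const, Finset.card_univ, Fintype.card_fin, nsmul_eq_mul,
      nsmul_eq_mul, mul_pow]
  have h4 : (𝔼 u : Fin τ → A, (∑ i, 𝔼 b, h (u i) b) ^ 2) ≤
      (τ : ℝ) * (𝔼 a, (𝔼 b, h a b) ^ 2) + (τ : ℝ) ^ 2 * (𝔼 a, 𝔼 b, h a b) ^ 2 := by
    refine (sq_one τ (fun (_ : Fin τ) (a : A) => 𝔼 b, h a b)).trans (le_of_eq ?_)
    rw [Finset.sum_const, Finset.sum_const, Finset.card_univ, Fintype.card_fin, nsmul_eq_mul,
      nsmul_eq_mul, mul_pow]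
  have h5 : (𝔼 b : A, 𝔼 u : Fin τ → A, (∑ i, h (u i) b) ^ 2) ≤
      (τ : ℝ) * (𝔼 a, 𝔼 b, h a b ^ 2) + (τ : ℝ) ^ 2 * (𝔼 b, (𝔼 a, h a b) ^ 2) := by
    refine (Finset.expect_le_expect fun b _ => h3 b).trans (le_of_eq ?_)
    rw [Finset.expect_add_distrib, ← Finset.mul_expect, ← Finset.mul_expect, Finset.expect_comm]
  have hτ : (0 : ℝ) ≤ τ := Nat.cast_nonneg τ
  have h6 := mul_le_mul_of_nonneg_left h5 hτ
  have h7 := mul_le_mul_of_nonneg_left h4 (pow_nonneg hτ 2)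
  nlinarith [h6, h7]

end Pool.Agent.Lib_helper67.LR
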